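import Pool.Agent.N657.QL.Fin5
import Pool.Agent.N691.QL_CPL

/-!
# Bogoliubov's theory for every momentum: lattice bosons at large filling

Ground states of lattice bosons in the regime of large filling (the quantum rotor or
Josephson-junction Hamiltonian, in which the hopping amplitude does not depend on the occupation
numbers) on the torus of even side in dimension at least two, with the number of particles of the
uniform filling. In the thermodynamic limit at the on-site interaction `U` (in units of the hopping),
and then `U → 0`, uniformly in the momentum: the momentum distribution is Bogoliubov's, the static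
structure factor is the Feynman-Bogoliubov one, and the dynamic structure factor is concentrated at
Bogoliubov's excitation energy `√(2 U λ)`.
-/

open Pool.Agent.N657.QL.BM

namespace Pool.Agent.Results.MP_dec75e_mp.BogoliubovModes

/-- Let `d ≥ 2` and `ε > 0`. If `U > 0` is small enough and the even side `L` of the torus is large
enough, there is a ground state `ψ`, it is unique up to a phase, and there is a complete orthonormal
system of real eigenfunctions `χ j` of the Hamiltonian (in the space of the wave functions with the
number of particles of the uniform filling), with the energies `E₀ + e j`, `e j ≥ 0`, where `E₀` is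
the ground state energy, such that for every momentum `k ≠ 0`, with `λ = dispersion k`:
the momentum distribution at `k` is `√(U / (2 λ))` up to a relative error `ε`; the static structure
factor is `√(λ / (8 U))` up to a relative error `ε`; and at least the fraction `1 - ε` of the squared
norm of the density wave `ρ_k ψ` is carried by the eigenfunctions with
`|e j - ω| ≤ ε ω`, where `ω = √(2 U λ)` is Bogoliubov's energy. -/
theorem result (d : ℕ) (hd : 2 ≤ d) (ε : ℝ) (hε : 0 < ε) :
    ∃ U₀ : ℝ, 0 < U₀ ∧ ∀ U : ℝ, 0 < U → U ≤ U₀ → ∃ L₀ : ℕ, ∀ (L : ℕ) [NeZero L], L₀ ≤ L →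
      Even L → (∃ ψ : (Site d L → ℤ) → ℂ, IsGroundState U ψ) ∧
        (∀ ψ φ : (Site d L → ℤ) → ℂ, IsGroundState U ψ → IsGroundState U φ →
          ∃ c : ℂ, ‖c‖ = 1 ∧ ∀ n, φ n = c * ψ n) ∧
        ∃ (ι : Type) (e : ι → ℝ) (χ : ι → (Site d L → ℤ) → ℝ),
          -- complete orthonormal system
          (∀ j, ∑' n, χ j n * χ j n = 1) ∧ (∀ i j, i ≠ j → ∑' n, χ i n * χ j n = 0) ∧
          (∀ φ : (Site d L → ℤ) → ℝ, Summable (fun n => φ n ^ 2) →
            (∀ n, φ n ≠ 0 → ∑ x, n x = 0) →
            HasSum (fun j => (∑' n, χ j n * φ n) ^ 2) (∑' n, φ n ^ 2)) ∧
          ∀ ψ : (Site d L → ℤ) → ℂ, IsGroundState U ψ →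
            -- eigenfunctions
            (∀ j, 0 ≤ e j ∧ IsEigenfunction U (energy U ψ + e j) (χ j)) ∧
            ∀ k : Site d L, k ≠ 0 →
              -- momentum distribution
              |momentumDistribution k ψ - Real.sqrt (U / (2 * dispersion k))| ≤
                ε * Real.sqrt (U / (2 * dispersion k)) ∧
              -- static structure factor
              |normSq (densityWave k ψ) / (Fintype.card (Site d L) : ℝ) -
                Real.sqrt (dispersion k / (8 * U))| ≤ ε * Real.sqrt (dispersion k / (8 * U)) ∧
              -- dynamic structure factor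
              (1 - ε) * normSq (densityWave k ψ) ≤
                ∑' j, if |e j - Real.sqrt (2 * U * dispersion k)| ≤
                    ε * Real.sqrt (2 * U * dispersion k) then
                  ‖∑' n, (χ j n : ℂ) * densityWave k ψ n‖ ^ 2 else 0 :=
  Pool.Agent.N657.QL.BM.main_of
    (Pool.Agent.N691.QLC.main Pool.Agent.N657.QR.bas Pool.Agent.N657.QR.lb) d hd ε hε

end Pool.Agent.Results.MP_dec75e_mp.BogoliubovModes
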